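import Pool.Agent.W982.TA.Grid

/-!
# TA-J4: the signals give a satisfying assignment
-/

set_option autoImplicit false

namespace Pool.Agent.W982.TA

open Pool.Agent.NPC

/-- step (1) -/
theorem j4_col0 {φ : List Cl} {h v : ℕ → ℕ → ℕ → Bool} (S : Sig φ h v) :
    ∀ i, i < nR φ - 1 → v i 0 4 = false ∧ h i 0 41 = false := by
  intro i
  induction i with
  | zero => intro _; exact S.bl
  | succ i ih =>
    intro hi
    have h0 := ih (by omega)
    rcases Nat.mod_two_eq_zero_or_one (i + 1) with hm | hm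
    · have := S.tB (i + 1) (by omega) hi hm (by simpa using h0.1)
      exact ⟨this.1, this.2.1⟩
    · have := S.tA (i + 1) hi hm (by simpa using h0.1)
      exact ⟨this.1, this.2.1⟩

/-- step (2) -/
theorem j4_row41 {φ : List Cl} {h v : ℕ → ℕ → ℕ → Bool} (S : Sig φ h v) :
    ∀ j, j < nC φ → ∀ i, i < nR φ - 1 → h i j 41 = false := by
  intro j
  induction j with
  | zero => intro _ i hi; exact (j4_col0 S i hi).2
  | succ j ih =>
    intro hj i hi
    have h0 := ih (by omega) i hi
    rcases Nat.eq_zero_or_pos i with rfl | hp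
    · exact (S.bf (j + 1) (by omega) hj (by simpa using h0)).1
    · exact (S.tC i (j + 1) hp hi (by omega) hj (by simpa using h0)).1

/-- step (4) -/
theorem j4_row19 {φ : List Cl} {h v : ℕ → ℕ → ℕ → Bool} (S : Sig φ h v) :
    ∀ j, j < nC φ → h (nR φ - 1) j 19 = true := by
  intro j
  induction j with
  | zero => intro _; exact S.tl
  | succ j ih =>
    intro hj
    exact (S.tf (j + 1) (by omega) hj (by simpa using ih (by omega))).1

/-- step (5) -/
theorem j4_row23 {φ : List Cl} {h v : ℕ → ℕ → ℕ → Bool} (S : Sig φ h v) {i : ℕ}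
    (hi1 : 1 ≤ i) (hi : i < nR φ - 1) :
    ∀ j, j < nC φ → h i j 23 = true → h i 0 23 = true := by
  intro j
  induction j with
  | zero => intro _ h0; exact h0
  | succ j ih =>
    intro hj h0
    have h1 := (S.tC i (j + 1) hi1 hi (by omega) hj
      (by simpa using j4_row41 S j (by omega) i hi)).2.1 h0
    exact ih (by omega) (by simpa using h1)

/-- step (6) -/
theorem j4_lval {φ : List Cl} {h v : ℕ → ℕ → ℕ → Bool} (S : Sig φ h v) {i : ℕ}
    (hi1 : 1 ≤ i) (hi : i < nR φ - 1) (h0 : h i 0 23 = true) :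
    h (2 * (litRow i).2 + 1) 0 23 = (litRow i).1 := by
  rcases Nat.mod_two_eq_zero_or_one i with hm | hm
  · obtain ⟨u, rfl⟩ : ∃ u, i = 2 * u + 2 := ⟨(i - 2) / 2, by omega⟩
    have e1 : (litRow (2 * u + 2)).2 = u := by
      show (2 * u + 2 - 1) / 2 = u
      omega
    have e2 : (litRow (2 * u + 2)).1 = false := by
      show decide ((2 * u + 2) % 2 = 1) = false
      simp only [decide_eq_false_iff_not]
      omega
    rw [e1, e2]
    have hv1 := (j4_col0 S (2 * u + 1) (by omega)).1
    have hv0 := (j4_col0 S (2 * u) (by omega)).1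
    have hB := (S.tB (2 * u + 2) (by omega) hi hm (by simpa using hv1)).2.2
    have hA := (S.tA (2 * u + 1) (by omega) (by omega) (by simpa using hv0)).2.2
    have hB' : ¬ v (2 * u + 1) 0 25 = true := fun hv => hB ⟨h0, by simpa using hv⟩
    by_contra hne
    exact hB' (hA (by simpa using hne))
  · obtain ⟨u, rfl⟩ : ∃ u, i = 2 * u + 1 := ⟨(i - 1) / 2, by omega⟩
    have e1 : (litRow (2 * u + 1)).2 = u := by
      show (2 * u + 1 - 1) / 2 = u
      omega
    have e2 : (litRow (2 * u + 1)).1 = true := by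
      show decide ((2 * u + 1) % 2 = 1) = true
      simp only [decide_eq_true_eq]
      omega
    rw [e1, e2, h0]

/-- step (7) -/
theorem j4_find {φ : List Cl} {h v : ℕ → ℕ → ℕ → Bool} (S : Sig φ h v) {j : ℕ}
    (hj1 : 1 ≤ j) (hj : j < nC φ) :
    ∀ i, i < nR φ - 1 → v i j 15 = true → ∃ i', 1 ≤ i' ∧ i' < nR φ - 1 ∧
      inCl (litRow i') (clOf φ j) = true ∧ h i' (j - 1) 23 = true := by
  intro i
  induction i with
  | zero =>
    intro hi hv
    have := (S.bf j hj1 hj (j4_row41 S (j - 1) (by omega) 0 hi)).2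
    rw [hv] at this
    exact absurd this (by simp)
  | succ i ih =>
    intro hi hv
    rcases (S.tC (i + 1) j (by omega) hi hj1 hj (j4_row41 S (j - 1) (by omega) (i + 1) hi)).2.2 hv
      with h1 | h1
    · exact ih (by omega) (by simpa using h1)
    · exact ⟨i + 1, by omega, hi, h1.1, h1.2⟩

theorem j4 : TaskJ4 := by
  intro φ h v _ S
  refine ⟨fun u => h (2 * u + 1) 0 23, ?_⟩
  intro c hc
  obtain ⟨k, hk, rfl⟩ := List.getElem_of_mem hc
  have hj : k + 1 < nC φ := by unfold nC; omega
  have hR : nR φ = 6 * φ.length + 2 := rfl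
  have h19 := j4_row19 S k (by omega)
  have hv := (S.tf (k + 1) (by omega) hj (by simpa using h19)).2
  obtain ⟨i, hi1, hi, hin, h23⟩ := j4_find S (by omega) hj (nR φ - 2) (by omega) hv
  have hl := j4_lval S hi1 hi (j4_row23 S hi1 hi _ (by omega) h23)
  have hcl : clOf φ (k + 1) = φ[k] := by
    unfold clOf
    simp [List.getD_eq_getElem?_getD, hk]
  rw [hcl] at hin
  unfold inCl at hin
  simp only [Bool.or_eq_true, decide_eq_true_eq] at hin
  rcases hin with (h1 | h1) | h1
  · left; show h (2 * (φ[k]).1.2 + 1) 0 23 = (φ[k]).1.1; rw [← h1]; exact hl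
  · right; left; show h (2 * (φ[k]).2.1.2 + 1) 0 23 = (φ[k]).2.1.1; rw [← h1]; exact hl
  · right; right; show h (2 * (φ[k]).2.2.2 + 1) 0 23 = (φ[k]).2.2.1; rw [← h1]; exact hl

end Pool.Agent.W982.TA

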